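import Pool.Agent.DQ2.Stmts

/-!
Squad DQ2 (MP_366d03_ag), row NAT: naturality of the constructions with respect to ring homomorphisms.
-/

set_option autoImplicit false

open MvPolynomial

namespace Pool.Agent.DQ2

namespace H52

theorem eval_nat {R S : Type} [CommRing R] [CommRing S] (φ : R →+* S) {N : ℕ}
    (F : MvPolynomial (Fin N) R) (x : Fin N → R) :
    φ (eval x F) = eval (fun j => φ (x j)) (map φ F) := by
  rw [eval_map]
  have h := (MvPolynomial.eval₂_comp_left φ (RingHom.id R) x F)
  rw [MvPolynomial.eval₂_id] at h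
  rw [h]
  rfl

theorem lf_nat {R S : Type} [CommRing R] [CommRing S] (φ : R →+* S) {N : ℕ}
    (F : MvPolynomial (Fin N) R) (x y : Fin N → R) :
    φ (lf F x y) = lf (map φ F) (fun j => φ (x j)) (fun j => φ (y j)) := by
  unfold lf
  rw [map_sum]
  apply Finset.sum_congr rfl
  intro j _
  rw [map_mul, eval_nat, MvPolynomial.pderiv_map]

theorem sec_nat {R S : Type} [CommRing R] [CommRing S] (φ : R →+* S) {N : ℕ}
    (F : MvPolynomial (Fin N) R) (x y : Fin N → R) :
    (fun j => φ (sec F x y j)) = sec (map φ F) (fun j => φ (x j)) (fun j => φ (y j)) := by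
  funext j
  unfold sec
  rw [map_sub, map_mul, map_mul, eval_nat, lf_nat]

theorem tg_nat {R S : Type} [CommRing R] [CommRing S] (φ : R →+* S) {N : ℕ}
    (F : MvPolynomial (Fin N) R) (x c y : Fin N → R) :
    (fun j => φ (tg F x c y j)) =
      tg (map φ F) (fun j => φ (x j)) (fun j => φ (c j)) (fun j => φ (y j)) := by
  funext j
  unfold tg
  rw [map_sub, map_mul, map_mul, lf_nat, lf_nat]

theorem ee_nat {R S : Type} [CommRing R] [CommRing S] (φ : R →+* S) (N i : ℕ) :
    (fun j => φ (ee N R i j)) = ee N S i := by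
  funext j
  unfold ee
  split_ifs <;> simp

theorem qq_nat {R S : Type} [CommRing R] [CommRing S] (φ : R →+* S) {N : ℕ}
    (F : MvPolynomial (Fin N) R) (x a : Fin N → R) :
    (fun j => φ (qq F x a j)) = qq (map φ F) (fun j => φ (x j)) (fun j => φ (a j)) := by
  unfold qq
  rw [sec_nat, tg_nat, ee_nat]

theorem phi3_nat {R S : Type} [CommRing R] [CommRing S] (φ : R →+* S) {N : ℕ}
    (F : MvPolynomial (Fin N) R) (x a b : Fin N → R) :
    (fun j => φ (phi3 F x a b j)) =
      phi3 (map φ F) (fun j => φ (x j)) (fun j => φ (a j)) (fun j => φ (b j)) := by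
  unfold phi3
  rw [sec_nat, sec_nat, tg_nat, tg_nat, sec_nat, tg_nat, ee_nat]

theorem nat : NAT := by
  intro R S _ _ φ N F
  refine ⟨fun x y => lf_nat φ F x y, fun x y j => congrFun (sec_nat φ F x y) j,
    fun x c y j => congrFun (tg_nat φ F x c y) j,
    fun x a b j => congrFun (phi3_nat φ F x a b) j, fun x a b c => ?_⟩
  unfold crit
  rw [map_mul, map_mul, map_mul, lf_nat, lf_nat, lf_nat, lf_nat, qq_nat, qq_nat, phi3_nat, ee_nat]

end H52

end Pool.Agent.DQ2
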